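import Pool.Agent.helper60.DB.SpecF

/-!
# Row bf:BE (MP_fb2c2a_nt): the isogenies of curve (b)
-/

set_option autoImplicit false

namespace Pool.Agent.helper60.DB

open Polynomial Finset Pool.Agent.helper60.DK

theorem BE_deg1 {K : Type} [Field K] (a b : K) : (C a - C b * X : K[X]).natDegree ≤ 1 := by
  refine (natDegree_sub_le _ _).trans (max_le ?_ ?_)
  · rw [natDegree_C]; exact Nat.zero_le _
  · have := natDegree_C_mul_X_pow_le b 1
    rwa [pow_one] at this

theorem BE (h1 : M1_stmt) (h2 : MO_stmt) (h3 : M2_stmt) (h4 : MM_stmt) (h5 : OO_stmt) (h6 : O2_stmt)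
    (h7 : OC_stmt) (h8 : BD_stmt) : BE_stmt := by
  intro R _ _ _ s t y hs ht hy
  have hsK : (algebraMap R (FractionRing R) s) ^ 2 = 2 := by
    rw [← map_pow, hs, map_ofNat]
  have htK : (algebraMap R (FractionRing R) t) ^ 2 = -3 := by
    rw [← map_pow, ht, map_neg, map_ofNat]
  obtain ⟨a1, a2, a3, a4, a5⟩ := h8 (FractionRing R) _ _ hsK htK
  obtain ⟨b1, b2, b3, b4, b5⟩ := h8 R s t hs ht
  have hyK := (h4 R (FractionRing R) (algebraMap R (FractionRing R)) (12 * (1 + s)) 6 0 y 0 0).2 hy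
  have k2 : KOp y (12 * (1 + s)) 6 (12 * (1 - s)) 6 (2 + s) 2 0 := by
    simp only [map_mul, map_add, map_ofNat, map_one] at hyK
    simp only [KOp, map_mul, map_add, map_sub, map_one, map_ofNat]
    exact h6 (FractionRing R) _ _ _ _ _ _ _ _ hyK a1 a2
  have k4 : KOp y (12 * (1 - s)) 6 (12 * (1 + s)) 6 (2 - s) 2 0 := by
    simp only [map_mul, map_add, map_ofNat, map_one] at hyK
    simp only [KOp, map_mul, map_add, map_sub, map_one, map_ofNat]
    exact h6 (FractionRing R) _ _ _ _ _ _ _ _ hyK a3 a4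
  have k3 : KOp y (12 * (1 + s)) 6 (12 * (1 - s)) 6 (t * (1 + s)) 3 1 := by
    simp only [map_mul, map_add, map_ofNat, map_one] at hyK
    simp only [KOp, map_mul, map_add, map_sub, map_one, map_ofNat]
    refine h5 (FractionRing R) _ _ _ _ _ _ _ _ _ _ _ 1 hyK a5 (BE_deg1 _ _) ?_
    have := BE_deg1 (1 : FractionRing R) (3 * (2 + algebraMap R (FractionRing R) s))
    rwa [C_1] at this
  have k1 : KOp y (12 * (1 + s)) 6 (12 * (1 + s)) 6 (s * t) 6 0 := by
    have h := h7 (FractionRing R) _ _ _ _ _ _ _ _ _ _ _ _ _ k3 k4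
    have e : algebraMap R (FractionRing R) (2 - s) * algebraMap R (FractionRing R) (t * (1 + s))
        = algebraMap R (FractionRing R) (s * t) := by
      rw [← map_mul]
      congr 1
      linear_combination (-t) * hs
    rw [e] at h
    exact h
  have m0 : Ml (12 * (1 + s)) 6 y 1 1 y := (h1 R _ _ 0 y 0 0).1 hy
  obtain ⟨g3, u3, m3, -, -⟩ := h2 R _ _ _ _ _ _ _ _ _ y _ _ b5 m0
  obtain ⟨g2, u2, m2, -, -⟩ := h3 R _ _ _ _ _ _ y _ _ b1 b2 m0
  obtain ⟨g1, u1, m1, -, -⟩ := h3 R _ _ _ _ _ _ y _ _ b3 b4 m3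
  refine ⟨k1, k2, k3, k4, ⟨g1, u1, ?_⟩, ⟨g2, u2, ?_⟩, ⟨g3, u3, ?_⟩⟩
  · have e : (2 - s) * (t * (1 + s) * 1) = s * t := by linear_combination (-t) * hs
    rw [← e]; exact m1
  · rw [mul_one] at m2; exact m2
  · rw [mul_one] at m3; exact m3

end Pool.Agent.helper60.DB
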