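import Pool.Agent.helper60.DB.SpecF

/-!
# Row bf:NQ (MP_fb2c2a_nt): the second value at `x = -1/16`
-/

set_option autoImplicit false

namespace Pool.Agent.helper60.DB

open Polynomial Finset Pool.Agent.helper60.DK

/-- the arithmetic at the end -/
theorem NQ_arith {R : Type} [CommRing R] [IsDomain R] [CharZero R] (P : R) (hP : P ≠ 0)
    (u v a b δ' ε S T z z1 z2 W1 W2 f s : R) (hu : u = 2 * f - 1) (hf : f ^ 2 = f + 1)
    (hs : 5 * s = 2 * u) (hv : v ^ 2 = -3) (hp : P = 3 * a ^ 2 + 5 * b ^ 2) (h5 : (5 : R) ≠ 0)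
    (hδ : u * b + v * a = P * δ') (c : R) (hc : c * (4 * T) = 1)
    (hT : 4 * T * S = (2 + s) * W1 + (2 - s) * W2 + P ^ 2 * z)
    (h1 : W1 = -ε * T * ((f - 1) * (u * b - v * a)) ^ 2 + P ^ 2 * z1)
    (h2 : W2 = -ε * T * (f * (u * b - v * a)) ^ 2 + P ^ 2 * z2) :
    ∃ z : R, S = ε * (12 * a ^ 2 - 2 * P) + P ^ 2 * z := by
  have hu2 : u ^ 2 = 5 := by rw [hu]; linear_combination 4 * hf
  have hsu : s * u = 2 := by
    apply mul_left_cancel₀ h5
    linear_combination u * hs + 2 * hu2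
  have hsum : (2 + s) * (f - 1) ^ 2 + (2 - s) * f ^ 2 = 4 := by
    have e : (2 + s) * (f - 1) ^ 2 + (2 - s) * f ^ 2 = 4 * (f ^ 2 - f) + 2 - s * (2 * f - 1) := by ring
    rw [e, ← hu, hsu]
    linear_combination 4 * hf
  -- `γ δ' = 1`
  have hγ : (u * b - v * a) * δ' = 1 := by
    apply mul_left_cancel₀ hP
    have e : P * ((u * b - v * a) * δ') = (u * b - v * a) * (P * δ') := by ring
    rw [e, ← hδ]
    linear_combination b ^ 2 * hu2 - a ^ 2 * hv - hp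
  have hγ2 : (u * b - v * a) ^ 2 = 2 * P - 12 * a ^ 2 - P ^ 2 * δ' ^ 2 := by
    -- `γ = 2 u b - P δ'`
    have e1 : u * b - v * a = 2 * (u * b) - P * δ' := by rw [← hδ]; ring
    have e2 : (u * b - v * a) ^ 2 = 4 * (u ^ 2 * b ^ 2) - 2 * P * (2 * (u * b) * δ') + P ^ 2 * δ' ^ 2 := by
      rw [e1]; ring
    have e3 : 2 * (u * b) * δ' = 1 + P * δ' ^ 2 := by
      have : 2 * (u * b) = (u * b - v * a) + P * δ' := by rw [← hδ]; ring
      rw [this, add_mul, hγ]; ring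
    rw [e2, e3, hu2]
    linear_combination -4 * hp
  refine ⟨ε * δ' ^ 2 + c * ((2 + s) * z1 + (2 - s) * z2 + z), ?_⟩
  have hk : 4 * T * S = 4 * T * (-ε * (u * b - v * a) ^ 2) + P ^ 2 * ((2 + s) * z1 + (2 - s) * z2 + z) := by
    rw [hT, h1, h2]
    have e : (2 + s) * (-ε * T * ((f - 1) * (u * b - v * a)) ^ 2 + P ^ 2 * z1)
        + (2 - s) * (-ε * T * (f * (u * b - v * a)) ^ 2 + P ^ 2 * z2) + P ^ 2 * z
        = -ε * T * (u * b - v * a) ^ 2 * ((2 + s) * (f - 1) ^ 2 + (2 - s) * f ^ 2)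
          + P ^ 2 * ((2 + s) * z1 + (2 - s) * z2 + z) := by ring
    rw [e, hsum]; ring
  have hS : S = -ε * (u * b - v * a) ^ 2 + P ^ 2 * (c * ((2 + s) * z1 + (2 - s) * z2 + z)) := by
    calc S = c * (4 * T) * S := by rw [hc, one_mul]
      _ = c * (4 * T * S) := by ring
      _ = c * (4 * T) * (-ε * (u * b - v * a) ^ 2)
          + P ^ 2 * (c * ((2 + s) * z1 + (2 - s) * z2 + z)) := by rw [hk]; ring
      _ = _ := by rw [hc]; ring
  rw [hS, hγ2]; ring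

theorem NQ_aux (h1 : IZ_stmt) (h2 : YE_stmt) (h3 : TT_stmt) (h4 : NG_stmt)
    (R k : Type) [CommRing R] [IsDomain R] [CharZero R] [Field k] (p : ℕ) [Fact p.Prime]
    [CharP k p] (q : R →+* k) (hL : Loc p q) (hp7 : 7 ≤ p) (hp11 : p ≠ 11) (f v x : R) (a b : ℤ)
    (hf : f ^ 2 = f + 1) (hv : v ^ 2 = -3) (hq : q f ^ p = 1 - q f) (hx : 16 * x = -1)
    (hp : (p : ℤ) = 3 * a ^ 2 + 5 * b ^ 2) (hz : q (v * a + (2 * f - 1) * b) = 0) :
    ∃ z : R, aeval x (DA.St p)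
      = (legendreSym p 48 : ℤ) * (12 * (a : R) ^ 2 - 2 * p) + (p : R) ^ 2 * z := by
  have hpp : p.Prime := Fact.out
  have hZ := (h1 R k p q hL).1
  have hodd : p % 2 = 1 := by
    rcases hpp.eq_two_or_odd with h | h
    · omega
    · exact h
  have hm : p = 2 * hh p + 1 := by unfold hh; omega
  -- units
  have hunit : ∀ n : ℕ, ¬ p ∣ n → IsUnit (n : R) := by
    intro n hn
    apply hL.unit
    intro h0
    apply hn
    have h := (hZ (n : ℤ)).1 (by rw [Int.cast_natCast]; exact h0)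
    exact_mod_cast h
  have hle : ∀ r : ℕ, r.Prime → r < 7 → ¬ p ∣ r := by
    intro r hr hr7 hd
    have := Nat.le_of_dvd hr.pos hd
    omega
  have hu2 : IsUnit (2 : R) := by exact_mod_cast hunit 2 (hle 2 Nat.prime_two (by norm_num))
  have hu3 : IsUnit (3 : R) := by exact_mod_cast hunit 3 (hle 3 Nat.prime_three (by norm_num))
  have hu5 : IsUnit (5 : R) := by exact_mod_cast hunit 5 (hle 5 Nat.prime_five (by norm_num))
  have hP : (p : R) ≠ 0 := by exact_mod_cast hpp.ne_zero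
  have h50 : (5 : R) ≠ 0 := hu5.ne_zero
  obtain ⟨c5, hc5⟩ := hu5.exists_right_inv
  obtain ⟨s, hs⟩ : ∃ s : R, 5 * s = 2 * (2 * f - 1) := ⟨2 * (2 * f - 1) * c5, by
    linear_combination (2 * (2 * f - 1)) * hc5⟩
  have hs2 : 5 * s ^ 2 = 4 := by
    apply mul_left_cancel₀ h50
    linear_combination (5 * s + 2 * (2 * f - 1)) * hs + 16 * hf
  have hu16 : IsUnit (16 : R) := by
    have e : (16 : R) = 2 ^ 4 := by norm_num
    rw [e]; exact hu2.pow 4
  have hu48 : IsUnit (48 : R) := by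
    have e : (48 : R) = 16 * 3 := by norm_num
    rw [e]; exact hu16.mul hu3
  have hus : IsUnit (4 - s ^ 2) := by
    have e : (5 : R) * (4 - s ^ 2) = 16 := by linear_combination -hs2
    have : IsUnit ((5 : R) * (4 - s ^ 2)) := by rw [e]; exact hu16
    exact isUnit_of_mul_isUnit_right this
  have hxs : x * (4 - s ^ 2) = s ^ 2 - 1 := by
    apply mul_left_cancel₀ h50
    linear_combination (-x) * hs2 + hx - hs2
  have h6250 : (625 : R) ≠ 0 := by
    have e : (625 : R) = 5 ^ 4 := by norm_num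
    rw [e]; exact pow_ne_zero _ h50
  have hA1 : ((12 - 3 * f) ^ 2 - 4 * 48) * ((s + 2) * (s - 2) ^ 3)
      = -16 * 48 * ((s - 1) * (s + 1) ^ 3) := by
    apply mul_left_cancel₀ h6250
    have e1 : (625 : R) * (((12 - 3 * f) ^ 2 - 4 * 48) * ((s + 2) * (s - 2) ^ 3))
        = ((12 - 3 * f) ^ 2 - 4 * 48) * ((5 * s + 10) * (5 * s - 10) ^ 3) := by ring
    have e2 : (625 : R) * (-16 * 48 * ((s - 1) * (s + 1) ^ 3))
        = -16 * 48 * ((5 * s - 5) * (5 * s + 5) ^ 3) := by ring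
    rw [e1, e2, hs]
    linear_combination (2304 * f ^ 4 - 32256 * f ^ 3 + 304128 * f ^ 2 + 352512 * f - 518400) * hf
  have hA2 : ((12 - 3 * (1 - f)) ^ 2 - 4 * 48) * ((-s + 2) * (-s - 2) ^ 3)
      = -16 * 48 * ((-s - 1) * (-s + 1) ^ 3) := by
    apply mul_left_cancel₀ h6250
    have e1 : (625 : R) * (((12 - 3 * (1 - f)) ^ 2 - 4 * 48) * ((-s + 2) * (-s - 2) ^ 3))
        = ((12 - 3 * (1 - f)) ^ 2 - 4 * 48) * ((-(5 * s) + 10) * (-(5 * s) - 10) ^ 3) := by ring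
    have e2 : (625 : R) * (-16 * 48 * ((-s - 1) * (-s + 1) ^ 3))
        = -16 * 48 * ((-(5 * s) - 5) * (-(5 * s) + 5) ^ 3) := by ring
    rw [e1, e2, hs]
    linear_combination (2304 * f ^ 4 + 23040 * f ^ 3 + 221184 * f ^ 2 - 873216 * f + 108288) * hf
  obtain ⟨y1, w1, hy1, hw1, -⟩ := h2 R hu2 (12 - 3 * f) 48
  obtain ⟨y2, w2, hy2, hw2, -⟩ := h2 R hu2 (12 - 3 * (1 - f)) 48
  obtain ⟨z, hT⟩ := h3 p (by omega) R s x (12 - 3 * f) (12 - 3 * (1 - f)) 48 y1 w1 y2 w2 hxs hus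
    hu48.ne_zero hA1 hA2 hy1 hw1 hy2 hw2
  obtain ⟨z1, hW1⟩ := h4 R k p (hh p) q hL hp7 hp11 hm f v a b y1 w1 hf hv hq hy1 hw1 hp hz
  have hfr : (1 - q f) ^ p = 1 - q f ^ p := by
    rw [sub_pow_char, one_pow]
  obtain ⟨z2, hW2⟩ := h4 R k p (hh p) q hL hp7 hp11 hm (1 - f) (-v) a b y2 w2
    (by linear_combination hf) (by rw [neg_sq, hv])
    (by rw [map_sub, map_one, hfr, hq]) hy2 hw2 hp
    (by
      have e : -v * (a : R) + (2 * (1 - f) - 1) * b = -(v * a + (2 * f - 1) * b) := by ring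
      rw [e, map_neg, hz, neg_zero])
  obtain ⟨δ', hδ'⟩ := (hL.ker _).1 hz
  have hu4T : IsUnit ((4 : R) * 48 ^ hh p) := by
    have e : (4 : R) = 2 ^ 2 := by norm_num
    rw [e]; exact (hu2.pow 2).mul (hu48.pow _)
  obtain ⟨c, hc⟩ := hu4T.exists_left_inv
  refine NQ_arith (p : R) hP (2 * f - 1) v a b δ' ((legendreSym p 48 : ℤ) : R) _ (48 ^ hh p)
    z z1 z2 _ _ f s rfl hf hs hv (by exact_mod_cast congrArg (Int.cast : ℤ → R) hp) h50
    (by rw [← hδ']; ring) c hc hT hW1 ?_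
  rw [hW2]
  ring

theorem NQ (h1 : IZ_stmt) (h2 : YE_stmt) (h3 : TT_stmt) (h4 : NG_stmt) : NQ_stmt := by
  intro R k _ _ _ _ p _ _ q hL hp7 hp11 f v x a b hf hv hq hx hp
  have hprod : q (v * a + (2 * f - 1) * b) * q (v * a + (2 * f - 1) * ((-b : ℤ) : R)) = 0 := by
    rw [← map_mul]
    have hpR : (p : R) = 3 * (a : R) ^ 2 + 5 * (b : R) ^ 2 := by
      exact_mod_cast congrArg (Int.cast : ℤ → R) hp
    have e : (v * a + (2 * f - 1) * b) * (v * a + (2 * f - 1) * ((-b : ℤ) : R)) = (p : R) * (-1) := by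
      push_cast
      rw [hpR]
      linear_combination (a : R) ^ 2 * hv - 4 * (b : R) ^ 2 * hf
    exact (hL.ker _).2 ⟨-1, e⟩
  rcases mul_eq_zero.1 hprod with h | h
  · exact NQ_aux h1 h2 h3 h4 R k p q hL hp7 hp11 f v x a b hf hv hq hx hp h
  · exact NQ_aux h1 h2 h3 h4 R k p q hL hp7 hp11 f v x a (-b) hf hv hq hx (by rw [hp]; ring) h

end Pool.Agent.helper60.DB
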